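import Pool.Agent.Helper54.S4.Stmts
import Pool.Agent.Helper52.SP.ES

/-! Module ET4: the tables are computable in polynomial time. -/

set_option autoImplicit false

namespace Pool.Agent.Helper54.S4

open Finset Pool.Agent.Helper54.SP Pool.Agent.Helper54.Poly

section et4

variable {α : Type} [TEnc α]

theorem et4_not {P : α → Prop} [∀ x, Decidable (P x)] (hP : PT fun x => decide (P x)) :
    PT (fun x => decide (¬ P x)) :=
  hP.not.congr fun x => by
    by_cases h : P x <;> simp [h]

theorem et4_le {f g : α → ℕ} (hf : PT f) (hg : PT g) : PT (fun x => decide (f x ≤ g x)) :=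
  (PT.leN hf hg).congr fun _ => decide_eq_decide.mpr Iff.rfl

theorem et4_eq {f : α → ℕ} (hf : PT f) (n : ℕ) : PT (fun x => decide (f x = n)) :=
  PT.eqN hf (PT.const n)

theorem et4_tb {t : α → Bool} {a b c : α → ℕ} (ht : PT t) (ha : PT a) (hb : PT b) (hc : PT c) :
    PT (fun i => tb4 (t i) (a i) (b i) (c i)) := by
  unfold tb4
  exact es_ite
    (es_or (es_and (et4_eq ha 0) (es_and (et4_eq hb 1) (et4_eq hc 2)))
      (es_and (et4_eq ha 1) (es_and (et4_eq hb 3) (et4_eq hc 5)))) ht
    (es_ite
      (es_or (es_and (et4_eq ha 0) (es_and (et4_eq hb 4) (et4_eq hc 5)))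
        (es_and (et4_eq ha 2) (es_and (et4_eq hb 3) (et4_eq hc 4)))) ht.not
      (et4_not (es_and (et4_eq hc 5) (es_or (et4_eq hb 4)
        (es_and (et4_eq hb 3) (et4_eq ha 2))))))

theorem et4_al {t : α → Bool} {a : α → ℕ} (ht : PT t) (ha : PT a) :
    PT (fun i => al (t i) (a i)) := by
  unfold al
  exact es_ite (es_bool ht) (PT.getD ha (PT.const _) (PT.const 0))
    (PT.getD ha (PT.const _) (PT.const 0))

end et4

theorem st_ET4 : ST_ET4 := by
  intro α _ t a b c d ht ha hb hc hd
  refine ⟨et4_tb ht ha hb hc, ?_⟩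
  have la := et4_al ht ha
  have lb := et4_al ht hb
  have lc := et4_al ht hc
  have ld := et4_al ht hd
  unfold l4
  exact es_ite (es_and (et4_le la ld) (es_and (et4_le lb ld) (et4_le lc ld)))
    (et4_tb ht ha hb hc)
    (es_ite (es_and (et4_le la lc) (et4_le lb lc)) (et4_tb ht ha hb hd).not
      (es_ite (et4_le la lb) (et4_tb ht ha hc hd) (et4_tb ht hb hc hd).not))

end Pool.Agent.Helper54.S4
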